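/-
helper20: module PIECE1 of helper10's board PB.
-/
import Pool.Agent.H10.PB.Targets
import Pool.Agent.H58.PS.FI
import Pool.Agent.H58.PS.CO

set_option autoImplicit false

open MeasureTheory Filter Topology
open Pool.Agent.H10.PS Pool.Agent.H10.PB

namespace Pool.Agent.H20.PB

theorem exists_transversal {r : ℕ} (F₀ : Subgroup (FG r)) (hfin : F₀.FiniteIndex) :
    ∃ tr : Finset (FG r), ∀ g, ∃! c, c ∈ tr ∧ c⁻¹ * g ∈ F₀ := by
  classical
  have : Fintype (FG r ⧸ F₀) := Fintype.ofFinite _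
  refine ⟨Finset.univ.image (Quotient.out : FG r ⧸ F₀ → FG r), fun g => ?_⟩
  refine ⟨(g : FG r ⧸ F₀).out, ⟨?_, ?_⟩, ?_⟩
  · exact Finset.mem_image.2 ⟨_, Finset.mem_univ _, rfl⟩
  · rw [← QuotientGroup.eq]
    exact Quotient.out_eq' _
  · rintro c ⟨hc, hcg⟩
    obtain ⟨q, -, rfl⟩ := Finset.mem_image.1 hc
    rw [← QuotientGroup.eq] at hcg
    have : q = (g : FG r ⧸ F₀) := by
      rw [← hcg]
      exact (Quotient.out_eq' q).symm
    rw [this]

theorem PIECE1 (h1 : T_PT1) (h2 : T_AVG) : T_PIECE1 := by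
  classical
  intro r R N F₀ hS hRF hfin μ hμ D φ u hDom
  have hprob := hμ.prob
  have hRn := hS.Rn
  have hF₀n : F₀.Normal := normal_of_commutator_le F₀ (hS.comm.trans hRF)
  obtain ⟨tr, htr⟩ := exists_transversal F₀ hfin
  have htr0 : (0 : ℝ) < tr.card := by
    obtain ⟨c, ⟨hc, -⟩, -⟩ := htr 1
    exact_mod_cast Finset.card_pos.2 ⟨c, hc⟩
  set C := ∑ P, |φ P| with hC
  set gh : XX r → ℝ := fun x => (∑ c ∈ tr, Phi D φ (conjX c x)) / tr.card with hgh
  have hmPhi := measurable_Phi D φ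
  have hmt : ∀ c : FG r, Measurable (fun x => Phi D φ (conjX c x)) := fun c =>
    hmPhi.comp (measurable_conjX c)
  have hm : Measurable gh := by
    refine Measurable.div_const ?_ _
    exact Finset.measurable_fun_sum _ fun c _ => hmt c
  have hb : ∀ x, |gh x| ≤ C := by
    intro x
    show |(∑ c ∈ tr, Phi D φ (conjX c x)) / tr.card| ≤ C
    rw [abs_div, abs_of_pos htr0, div_le_iff₀ htr0]
    refine (Finset.abs_sum_le_sum_abs _ _).trans ?_
    refine (Finset.sum_le_sum fun i _ => Phi_abs_le D φ _).trans ?_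
    rw [Finset.sum_const, nsmul_eq_mul, mul_comm]
  have hXm := measurableSet_XF R F₀
  obtain ⟨hb', hm', hint'⟩ := h2 r R N hS μ hμ gh C hm hb
  have e1 := hint' (XF R F₀) hXm (fun a _ => XF_conj R hRn F₀ hF₀n a)
  have e2 : ∫ x in XF R F₀, gh x ∂μ = ∫ x in XF R F₀, Phi D φ x ∂μ := by
    show ∫ x in XF R F₀, (∑ c ∈ tr, Phi D φ (conjX c x)) / tr.card ∂μ = _
    rw [integral_div, integral_finsetSum]
    · have e3 : ∀ c ∈ tr, ∫ x in XF R F₀, Phi D φ (conjX c x) ∂μ =
          ∫ x in XF R F₀, Phi D φ x ∂μ := fun c _ =>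
        setIntegral_conj μ hμ.inv (XF R F₀) hXm c (XF_conj R hRn F₀ hF₀n c) (Phi D φ) hmPhi
      rw [Finset.sum_congr rfl e3, Finset.sum_const, nsmul_eq_mul]
      field_simp
    · intro c _
      exact Integrable.of_bound (hmt c).aestronglyMeasurable C
        (ae_of_all _ fun x => by rw [Real.norm_eq_abs]; exact Phi_abs_le D φ _)
  rw [← e2, ← e1]
  have hfi := Pool.Agent.H58.PS.FI Pool.Agent.H58.PS.CO r R N hRn hS.Nn hS.comm hS.NR hS.RR μ hμ
  have hle : ∀ᵐ x ∂(μ.restrict (XF R F₀)), ravg R gh x ≤ u := by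
    rw [ae_restrict_iff' hXm]
    filter_upwards [hμ.sub, hfi] with x hx hfin hxS
    obtain ⟨H, hNH, hxH⟩ := hx
    have hHF : H ⊔ R = F₀ := (mem_XF_iff R hRn F₀ H x hxH).1 hxS
    have h3 := h1 r R N hS D φ u hDom F₀ hRF tr htr H hNH hHF x hxH hfin.toFinset (by
      intro y
      rw [Set.Finite.mem_toFinset]
      rfl)
    have hcard : (0 : ℝ) < hfin.toFinset.card := by
      have : hfin.toFinset.Nonempty := ⟨x, by
        rw [Set.Finite.mem_toFinset]
        exact ⟨1, R.one_mem, (conjX_one x).symm⟩⟩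
      exact_mod_cast this.card_pos
    unfold ravg
    rw [dif_pos hfin, div_le_iff₀ hcard]
    show ∑ z ∈ hfin.toFinset, (∑ c ∈ tr, Phi D φ (conjX c z)) / tr.card ≤ _
    rw [← Finset.sum_div, div_le_iff₀ htr0, Finset.sum_comm]
    calc _ ≤ _ := h3
      _ = _ := by ring
  have h4 : ∫ x in XF R F₀, ravg R gh x ∂μ ≤ ∫ x in XF R F₀, u ∂μ := by
    refine integral_mono_ae ?_ (integrable_const _) hle
    exact Integrable.of_bound hm'.restrict C
      (ae_of_all _ fun x => by rw [Real.norm_eq_abs]; exact hb' x)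
  refine h4.trans (le_of_eq ?_)
  rw [integral_const, smul_eq_mul, mul_comm]
  simp [Measure.real]

end Pool.Agent.H20.PB
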