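/-
helper20: module STATE of helper10's board PB.
-/
import Pool.Agent.H10.PB.Targets
import Pool.Agent.H58.PS.FI
import Pool.Agent.H58.PS.CO

set_option autoImplicit false

open MeasureTheory Filter Topology
open Pool.Agent.H10.PS Pool.Agent.H10.PB

namespace Pool.Agent.H20.PB

section st

variable {r : ℕ}

theorem conjX_eq_iff (R H : Subgroup (FG r)) (x : XX r) (hx : ∀ w, x w = true ↔ w ∈ H)
    (a : FG r) (ha : a ∈ R) : conjX a x = x ↔ a ∈ nor R H := by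
  constructor
  · intro h
    refine ⟨ha, fun y => ?_⟩
    have h1 := congrFun h (a * y * a⁻¹)
    unfold conjX at h1
    have e : a⁻¹ * (a * y * a⁻¹) * a = y := by group
    rw [e] at h1
    rw [← hx, ← hx, h1]
  · rintro ⟨-, h⟩
    funext w
    rw [Bool.eq_iff_iff]
    show x (a⁻¹ * w * a) = true ↔ _
    rw [hx, hx, h (a⁻¹ * w * a)]
    have e : a * (a⁻¹ * w * a) * a⁻¹ = w := by group
    rw [e]

theorem conjX_conj_iff (x : XX r) (g a : FG r) :
    conjX a (conjX g⁻¹ x) = conjX g⁻¹ x ↔ conjX (g * a * g⁻¹) x = x := by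
  constructor
  · intro h
    have h1 := congrArg (conjX g) h
    rw [← conjX_mul, ← conjX_mul, ← conjX_mul, mul_inv_cancel, conjX_one] at h1
    exact h1
  · intro h
    have h1 := congrArg (conjX g⁻¹) h
    rw [← conjX_mul] at h1
    rw [← conjX_mul]
    have e : g⁻¹ * (g * a * g⁻¹) = a * g⁻¹ := by group
    rw [e] at h1
    exact h1

variable {R N : Subgroup (FG r)} {t : FG r}

theorem exh_finset (W : Win R N t) (T : Finset (FG r)) (hT : ∀ x ∈ T, x ∈ W.U) :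
    ∃ s : ℕ, ∀ s' : ℕ, s ≤ s' → ∀ x ∈ T, x ∈ W.V (-s') s' := by
  classical
  induction T using Finset.induction_on with
  | empty => exact ⟨0, fun s' _ x hx => absurd hx (Finset.notMem_empty _)⟩
  | insert a T ha ih =>
    obtain ⟨s1, h1⟩ := ih fun x hx => hT x (Finset.mem_insert_of_mem hx)
    obtain ⟨s2, h2⟩ := W.exh a (hT a (Finset.mem_insert_self _ _))
    refine ⟨max s1 s2, fun s' hs' x hx => ?_⟩
    rcases Finset.mem_insert.1 hx with rfl | hx
    · refine W.mono (-s2) s2 (-s') s' ?_ ?_ h2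
      · have := (le_max_right s1 s2).trans hs'
        omega
      · have := (le_max_right s1 s2).trans hs'
        omega
    · exact h1 s' ((le_max_left _ _).trans hs') x hx

theorem shift_pow (W : Win R N t) (a b : ℤ) (x : FG r) (n : ℕ) :
    x ∈ W.V a b ↔ t ^ n * x * (t ^ n)⁻¹ ∈ W.V (a + n) (b + n) := by
  induction n with
  | zero => simp
  | succ n ih =>
    rw [ih, W.shift]
    have e1 : t * (t ^ n * x * (t ^ n)⁻¹) * t⁻¹ = t ^ (n + 1) * x * (t ^ (n + 1))⁻¹ := by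
      rw [pow_succ']
      group
    have e2 : a + (n : ℤ) + 1 = a + ((n + 1 : ℕ) : ℤ) := by push_cast; ring
    have e3 : b + (n : ℤ) + 1 = b + ((n + 1 : ℕ) : ℤ) := by push_cast; ring
    rw [e1, e2, e3]

/-- the state sets -/
def GS (W : Win R N t) (s : ℕ) (K₁ K₂ : Subgroup (FG r)) : Set (XX r) :=
  {x | (∀ w, w ∈ W.V (-s) s → (x w = true ↔ w ∈ K₁)) ∧
    (∀ a, a ∈ W.V (-s) s → a ∈ R → (conjX a x = x ↔ a ∈ K₂)) ∧
    (∀ b, b ∈ R → ∃ v, v ∈ W.V (-s) s ∧ v ∈ R ∧ conjX (v⁻¹ * b) x = x) ∧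
    (∀ w, x w = true → ∃ v, v ∈ W.V (-s) s ∧ x v = true ∧ w * v⁻¹ ∈ R)}

theorem meas_fix (a : FG r) : Measurable (fun x : XX r => (conjX a x = x : Prop)) := by
  have : (fun x : XX r => (conjX a x = x : Prop)) =
      fun x : XX r => ∀ w : FG r, (x (a⁻¹ * w * a) = true ↔ x w = true) := by
    funext x
    rw [eq_iff_iff]
    constructor
    · intro h w
      rw [← congrFun h w]
      rfl
    · intro h
      funext w
      rw [Bool.eq_iff_iff]
      exact h w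
  rw [this]
  exact Measurable.forall fun w =>
    Measurable.iff (Pool.Agent.H58.PS.meas_coord _) (Pool.Agent.H58.PS.meas_coord _)

theorem measurableSet_GS (W : Win R N t) (s : ℕ) (K₁ K₂ : Subgroup (FG r)) :
    MeasurableSet (GS W s K₁ K₂) := by
  unfold GS
  refine measurableSet_setOfPred.2 ?_
  refine Measurable.and ?_ (Measurable.and ?_ (Measurable.and ?_ ?_))
  · exact Measurable.forall fun w => Measurable.imp measurable_const
      (Measurable.iff (Pool.Agent.H58.PS.meas_coord w) measurable_const)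
  · exact Measurable.forall fun a => Measurable.imp measurable_const
      (Measurable.imp measurable_const (Measurable.iff (meas_fix a) measurable_const))
  · exact Measurable.forall fun b => Measurable.imp measurable_const
      (Measurable.exists fun v => Measurable.and measurable_const
        (Measurable.and measurable_const (meas_fix _)))
  · exact Measurable.forall fun w => Measurable.imp (Pool.Agent.H58.PS.meas_coord w)
      (Measurable.exists fun v => Measurable.and measurable_const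
        (Measurable.and (Pool.Agent.H58.PS.meas_coord v) measurable_const))

/-- covering -/
theorem exists_state (hS : Sett R N) (W : Win R N t) (s₀ : ℕ) (H : Subgroup (FG r))
    (hNH : N ≤ H) (hHU : H ≤ W.U) (x : XX r) (hx : ∀ w, x w = true ↔ w ∈ H)
    (hfin : {y | ∃ a ∈ R, y = conjX a x}.Finite) :
    ∃ s : ℕ, s₀ ≤ s ∧ W.w ≤ s ∧ x ∈ GS W s (H ⊓ W.V (-s) s) (nor R H ⊓ W.V (-s) s) := by
  classical
  -- representatives of the orbit
  have hrep : ∀ y ∈ hfin.toFinset, ∃ a, a ∈ R ∧ y = conjX a x := by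
    intro y hy
    rw [Set.Finite.mem_toFinset] at hy
    exact hy
  choose! a haR haz using hrep
  obtain ⟨S, hSf⟩ := W.fin
  set S' : Finset (FG r) := S.filter fun y => ∃ h ∈ H, h * y⁻¹ ∈ R with hS'
  have hrep2 : ∀ y ∈ S', ∃ h, h ∈ H ∧ h * y⁻¹ ∈ R := by
    intro y hy
    exact (Finset.mem_filter.1 hy).2
  choose! b hbH hbR using hrep2
  obtain ⟨s1, h1⟩ := exh_finset W (hfin.toFinset.image a ∪ S'.image b) (by
    intro z hz
    rcases Finset.mem_union.1 hz with hz | hz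
    · obtain ⟨y, hy, rfl⟩ := Finset.mem_image.1 hz
      exact W.R_le (haR y hy)
    · obtain ⟨y, hy, rfl⟩ := Finset.mem_image.1 hz
      exact hHU (hbH y hy))
  refine ⟨max s1 (max s₀ W.w), (le_max_left _ _).trans (le_max_right _ _),
    (le_max_right _ _).trans (le_max_right _ _), ?_⟩
  have h2 := h1 (max s1 (max s₀ W.w)) (le_max_left _ _)
  set s := max s1 (max s₀ W.w) with hs
  refine ⟨fun w hw => ?_, fun c hc hcR => ?_, fun c hc => ?_, fun w hw => ?_⟩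
  · rw [hx, Subgroup.mem_inf]
    exact ⟨fun h => ⟨h, hw⟩, fun h => h.1⟩
  · rw [conjX_eq_iff R H x hx c hcR, Subgroup.mem_inf]
    exact ⟨fun h => ⟨h, hc⟩, fun h => h.1⟩
  · have h3 : conjX c x ∈ hfin.toFinset := by
      rw [Set.Finite.mem_toFinset]
      exact ⟨c, hc, rfl⟩
    refine ⟨a (conjX c x), h2 _ (Finset.mem_union_left _ (Finset.mem_image_of_mem _ h3)),
      haR _ h3, ?_⟩
    have h4 := haz _ h3
    have h5 := congrArg (conjX (a (conjX c x))⁻¹) h4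
    rw [← conjX_mul, ← conjX_mul, inv_mul_cancel, conjX_one] at h5
    exact h5
  · have hwH := (hx w).1 hw
    obtain ⟨y, hy, hyR⟩ := hSf w (hHU hwH)
    have hy' : y ∈ S' := Finset.mem_filter.2 ⟨hy, w, hwH, hyR⟩
    refine ⟨b y, h2 _ (Finset.mem_union_right _ (Finset.mem_image_of_mem _ hy')),
      (hx _).2 (hbH y hy'), ?_⟩
    have h3 := R.mul_mem hyR (R.inv_mem (hbR y hy'))
    have e : w * y⁻¹ * (b y * y⁻¹)⁻¹ = w * (b y)⁻¹ := by group
    rwa [e] at h3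

theorem rec_of_state (hS : Sett R N) (W : Win R N t) (s : ℕ) (hws : W.w ≤ s)
    (H : Subgroup (FG r))
    (hNH : N ≤ H) (hHU : H ≤ W.U) (x : XX r) (hx : ∀ w, x w = true ↔ w ∈ H)
    (K₁ K₂ : Subgroup (FG r)) (n : ℕ) (hn : 0 < n) (h1 : x ∈ GS W s K₁ K₂)
    (h2 : conjX (t ^ n)⁻¹ x ∈ GS W s K₁ K₂) : Rec W s n H := by
  have hRn := hS.Rn
  obtain ⟨a1, a2, a3, a4⟩ := h1
  obtain ⟨b1, b2, b3, b4⟩ := h2
  have hx' : ∀ w, conjX (t ^ n)⁻¹ x w = true ↔ t ^ n * w * (t ^ n)⁻¹ ∈ H := by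
    intro w
    unfold conjX
    rw [hx, inv_inv]
  have hV : ∀ v, v ∈ W.V (-s) s → t ^ n * v * (t ^ n)⁻¹ ∈ W.V (n - s) (n + s) := by
    intro v hv
    have h3 := (shift_pow W (-s) s v n).1 hv
    have e1 : (-(s : ℤ)) + n = n - s := by ring
    have e2 : (s : ℤ) + n = n + s := by ring
    rwa [e1, e2] at h3
  have hRc : ∀ v, v ∈ R → t ^ n * v * (t ^ n)⁻¹ ∈ R := fun v hv => hRn.conj_mem v hv _
  have hRc' : ∀ v, v ∈ R → (t ^ n)⁻¹ * v * (t ^ n) ∈ R := fun v hv => by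
    have := hRn.conj_mem v hv (t ^ n)⁻¹
    rwa [inv_inv] at this
  refine ⟨hNH, hHU, hn, by omega, ?_, ?_, ?_, ?_, ?_, ?_⟩
  · intro y hy
    obtain ⟨v, hv, hvR, hvx⟩ := a3 y hy
    exact ⟨v, hv, hvR, (conjX_eq_iff R H x hx _ (R.mul_mem (R.inv_mem hvR) hy)).1 hvx⟩
  · intro y hy
    obtain ⟨v, hv, hvR, hvx⟩ := b3 _ (hRc' y hy)
    refine ⟨t ^ n * v * (t ^ n)⁻¹, hV v hv, hRc v hvR, ?_⟩
    rw [conjX_conj_iff] at hvx
    have e : t ^ n * (v⁻¹ * ((t ^ n)⁻¹ * y * t ^ n)) * (t ^ n)⁻¹ =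
        (t ^ n * v * (t ^ n)⁻¹)⁻¹ * y := by group
    rw [e] at hvx
    exact (conjX_eq_iff R H x hx _ (R.mul_mem (R.inv_mem (hRc v hvR)) hy)).1 hvx
  · intro y hy
    obtain ⟨v, hv, hvx, hvR⟩ := a4 y ((hx y).2 hy)
    exact ⟨v, hv, (hx v).1 hvx, hvR⟩
  · intro y hy
    have e0 : t ^ n * ((t ^ n)⁻¹ * y * t ^ n) * (t ^ n)⁻¹ = y := by group
    obtain ⟨v, hv, hvx, hvR⟩ := b4 ((t ^ n)⁻¹ * y * t ^ n) (by
      rw [hx', e0]
      exact hy)
    refine ⟨t ^ n * v * (t ^ n)⁻¹, hV v hv, (hx' v).1 hvx, ?_⟩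
    have h3 := hRc _ hvR
    have e : t ^ n * ((t ^ n)⁻¹ * y * t ^ n * v⁻¹) * (t ^ n)⁻¹ =
        y * (t ^ n * v * (t ^ n)⁻¹)⁻¹ := by group
    rwa [e] at h3
  · intro v hv
    rw [← hx' v, b1 v hv, ← a1 v hv, hx]
  · intro v hv hvR
    rw [← conjX_eq_iff R H x hx v hvR, a2 v hv hvR, ← b2 v hv hvR, conjX_conj_iff,
      conjX_eq_iff R H x hx _ (hRc v hvR)]

end st

theorem STATE : T_STATE := by
  classical
  intro r R N t hS W s₀ μ hμ F₀ hRF hinf
  have hRn := hS.Rn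
  have hFU : F₀ ≤ W.U := W.big F₀ hRF hinf
  have hc : ∀ s : ℕ, Countable {K : Subgroup (FG r) // N ≤ K ∧ K ≤ W.V (-s) s} := fun s =>
    (W.count (-s) s).to_subtype
  refine ⟨Σ s : {s : ℕ // s₀ ≤ s ∧ W.w ≤ s}, {K : Subgroup (FG r) // N ≤ K ∧ K ≤ W.V (-(s : ℕ)) (s : ℕ)} ×
    {K : Subgroup (FG r) // N ≤ K ∧ K ≤ W.V (-(s : ℕ)) (s : ℕ)}, inferInstance,
    fun i => GS W (i.1 : ℕ) (i.2.1 : Subgroup (FG r)) (i.2.2 : Subgroup (FG r)),
    fun i => (i.1 : ℕ), fun i => i.1.2.1, fun i => measurableSet_GS W _ _ _, ?_, ?_⟩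
  · have hfi := Pool.Agent.H58.PS.FI Pool.Agent.H58.PS.CO r R N hRn hS.Nn hS.comm hS.NR hS.RR μ hμ
    filter_upwards [hμ.sub, hfi] with x hx hfin hxS
    obtain ⟨H, hNH, hxH⟩ := hx
    have hHF : H ⊔ R = F₀ := (mem_XF_iff R hRn F₀ H x hxH).1 hxS
    have hHU : H ≤ W.U := (le_sup_left.trans hHF.le).trans hFU
    obtain ⟨s, hs1, hs2, hs3⟩ := exists_state hS W s₀ H hNH hHU x hxH hfin
    refine ⟨⟨⟨s, hs1, hs2⟩, ⟨H ⊓ W.V (-s) s, le_inf hNH (W.N_le _ _), inf_le_right⟩,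
      ⟨nor R H ⊓ W.V (-s) s, le_inf ?_ (W.N_le _ _), inf_le_right⟩⟩, hs3⟩
    intro a ha
    refine ⟨hS.NR ha, fun y => ?_⟩
    constructor
    · intro hy
      exact H.mul_mem (H.mul_mem (hNH ha) hy) (H.inv_mem (hNH ha))
    · intro hy
      have := H.mul_mem (H.mul_mem (H.inv_mem (hNH ha)) hy) (hNH ha)
      have e : a⁻¹ * (a * y * a⁻¹) * a = y := by group
      rwa [e] at this
  · intro i
    filter_upwards [hμ.sub] with x hx n hn hxS h1 h2
    obtain ⟨H, hNH, hxH⟩ := hx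
    have hHF : H ⊔ R = F₀ := (mem_XF_iff R hRn F₀ H x hxH).1 hxS
    have hHU : H ≤ W.U := (le_sup_left.trans hHF.le).trans hFU
    exact ⟨H, hxH, rec_of_state hS W _ i.1.2.2 H hNH hHU x hxH _ _ n hn h1 h2⟩

end Pool.Agent.H20.PB
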